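import Pool.Agent.Results.MP_81a968_lc.LowIsoGeneric
import Pool.Agent.Helper227.SOne
import Pool.Agent.Helper743.Oracle

set_option autoImplicit false

namespace Pool.Agent.Results.MP_81a968_lc.SigmaTwoDegree

open Pool.Agent.Results.MP_81a968_lc.LowIsoGeneric

/-- The string `σ` lies strictly to the right of `X` in the lexicographic order. -/
def RightOf (σ : List Bool) (X : ℕ → Bool) : Prop :=
  ∃ k, σ[k]? = some true ∧ X k = false ∧ ∀ i < k, σ[i]? = some (X i)

/-- the string `σ` lies to the right of the string `β` -/
def RightB (σ β : List Bool) : Prop :=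
  ∃ k < σ.length, (σ[k]? = some true ∧ β[k]? = some false) ∧ ∀ i < k, σ[i]? = β[i]?

theorem RightB_p : PrimrecPred fun x : List Bool × List Bool => RightB x.1 x.2 := by
  refine Pool.Agent.Helper227.PP.ex_lt (f := fun x : List Bool × List Bool => x.1.length)
    (p := fun x k => (x.1[k]? = some true ∧ x.2[k]? = some false) ∧ ∀ i < k, x.1[i]? = x.2[i]?) ?_
    (Primrec.list_length.comp Primrec.fst)
  refine PrimrecPred.and (PrimrecPred.and ?_ ?_) ?_
  · exact Primrec.eq.comp (Primrec.list_getElem?.comp (Primrec.fst.comp Primrec.fst) Primrec.snd)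
      (Primrec.const _)
  · exact Primrec.eq.comp (Primrec.list_getElem?.comp (Primrec.snd.comp Primrec.fst) Primrec.snd)
      (Primrec.const _)
  · refine Pool.Agent.Helper227.PP.all_lt (f := fun y : (List Bool × List Bool) × ℕ => y.2)
      (p := fun y i => y.1.1[i]? = y.1.2[i]?) ?_ Primrec.snd
    exact Primrec.eq.comp
      (Primrec.list_getElem?.comp (Primrec.fst.comp (Primrec.fst.comp Primrec.fst)) Primrec.snd)
      (Primrec.list_getElem?.comp (Primrec.snd.comp (Primrec.fst.comp Primrec.fst)) Primrec.snd)

theorem lt_of_some {σ : List Bool} {k : ℕ} {b : Bool} (h : σ[k]? = some b) : k < σ.length := by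
  by_contra hc
  rw [List.getElem?_eq_none (by omega)] at h
  simp at h

theorem right_of_ini {σ β : List Bool} {X : ℕ → Bool} (h : RightB σ β) (hX : Ini X β) :
    RightOf σ X := by
  obtain ⟨k, -, ⟨h1, h2⟩, h3⟩ := h
  have hk := lt_of_some h2
  refine ⟨k, h1, ?_, fun i hi => ?_⟩
  · rw [hX k hk] at h2
    exact Option.some.inj h2
  · rw [h3 i hi, hX i (by omega)]

theorem right_of_right {σ β : List Bool} {X : ℕ → Bool} (h : RightB σ β) (hX : RightOf β X) :
    RightOf σ X := by
  obtain ⟨k, -, ⟨h1, h2⟩, h3⟩ := h
  obtain ⟨m, h4, h5, h6⟩ := hX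
  rcases lt_trichotomy k m with hkm | hkm | hkm
  · refine ⟨k, h1, ?_, fun i hi => ?_⟩
    · rw [h6 k hkm] at h2
      exact Option.some.inj h2
    · rw [h3 i hi, h6 i (by omega)]
  · rw [hkm, h4] at h2
    simp at h2
  · refine ⟨m, ?_, h5, fun i hi => ?_⟩
    · rw [h3 m hkm, h4]
    · rw [h3 i (by omega), h6 i hi]

theorem rightB_of {σ β : List Bool} {X : ℕ → Bool} (h : RightOf σ X) (hX : Ini X β)
    (hlen : σ.length ≤ β.length) : RightB σ β := by
  obtain ⟨k, h1, h2, h3⟩ := h
  have hk := lt_of_some h1
  refine ⟨k, hk, ⟨h1, ?_⟩, fun i hi => ?_⟩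
  · rw [hX k (by omega), h2]
  · rw [h3 i hi, hX i (by omega)]

theorem getElem?_of_pre {σ τ : List Bool} (h : σ <+: τ) {k : ℕ} (hk : k < σ.length) :
    τ[k]? = σ[k]? := by
  obtain ⟨ρ, rfl⟩ := h
  rw [List.getElem?_append_left hk]

/-- the stage `s` approximation is an initial segment of the generic or to the right of it -/
theorem base_right (s j : ℕ) : Ini G (base finf s j) ∨ RightOf (base finf s j) G := by
  rcases gen_mem finf_ext s j with ⟨i, hi, h1, h2⟩ | h
  · right
    have h3 : dec finf i (base finf s i) ++ [false] <+: (cur finf s i).1 :=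
      run_mono finf_ext i (dec finf i (base finf s i)) (Nat.zero_le s)
    have h4 : base finf s (i + 1) = dec finf i (base finf s i) ++ [true] := by
      rw [base_succ]
      unfold nxt
      unfold cur at h1
      rw [h1]; rfl
    have h5 : dec finf i (base finf s i) ++ [true] <+: base finf s j := by
      rw [← h4]
      exact base_mono finf_ext s (by omega)
    have h6 : Ini G (dec finf i (base finf s i) ++ [false]) := ini_of_prefix h3 h2
    generalize dec finf i (base finf s i) = δ at h5 h6
    refine ⟨δ.length, ?_, ?_, fun k hk => ?_⟩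
    · rw [getElem?_of_pre h5 (by simp)]
      simp
    · have h7 := h6 δ.length (by simp)
      simp at h7
      exact h7
    · rw [getElem?_of_pre h5 (by simp; omega)]
      have h7 := h6 k (by simp; omega)
      rw [List.getElem?_append_left hk] at h7 ⊢
      exact h7
  · left
    rw [h]
    exact ini_G j

theorem sigma02 : IsSigma02 {σ | RightOf σ G} := by
  classical
  refine ⟨fun x => decide (RightB x.1 (base (find (x.2.1.unpair.2 + x.2.2)) x.2.1.unpair.1
    x.1.length)), ?_, fun σ => ?_⟩
  · have h1 : Computable fun x : List Bool × List Bool => decide (RightB x.1 x.2) :=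
      RightB_p.decide.to_comp
    refine h1.comp (Computable.fst.pair ?_)
    refine base_comp (t := fun x : List Bool × ℕ × ℕ => x.2.1.unpair.2 + x.2.2)
      (s := fun x => x.2.1.unpair.1) (j := fun x => x.1.length) ?_ ?_ ?_
    · exact Primrec.nat_add.to_comp.comp (Computable.snd.comp (Computable.unpair.comp
        (Computable.fst.comp Computable.snd))) (Computable.snd.comp Computable.snd)
    · exact Computable.fst.comp (Computable.unpair.comp (Computable.fst.comp Computable.snd))
    · exact Computable.list_length.comp Computable.fst
  · simp only [Set.mem_ofPred_eq, decide_eq_true_eq]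
    constructor
    · intro h
      obtain ⟨s, hs⟩ := base_eventually (φ := finf) σ.length
      obtain ⟨t0, ht0⟩ := Filter.eventually_atTop.1 (base_ev s σ.length)
      refine ⟨Nat.pair s t0, fun b => ?_⟩
      rw [Nat.unpair_pair, ht0 _ (Nat.le_add_right _ _), hs s le_rfl _ le_rfl]
      exact rightB_of h (ini_G _) (fb_length finf_ext _)
    · rintro ⟨a, ha⟩
      obtain ⟨t0, ht0⟩ := Filter.eventually_atTop.1 (base_ev a.unpair.1 σ.length)
      have h1 := ha t0
      rw [ht0 _ (Nat.le_add_left _ _)] at h1
      rcases base_right a.unpair.1 σ.length with h2 | h2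
      · exact right_of_ini h1 h2
      · exact right_of_right h1 h2

/-- `Σ⁰₂` sets of natural numbers -/
def SigmaTwo (B : ℕ → Bool) : Prop :=
  ∃ R : ℕ × ℕ × ℕ → Bool, Computable R ∧ ∀ n, B n = true ↔ ∃ a, ∀ b, R (n, a, b) = true

open Classical in
/-- the codes of the strings to the right of the generic -/
noncomputable def AA (m : ℕ) : Bool :=
  decide (RightOf ((Encodable.decode (α := List Bool) m).getD []) G)

open Classical in
theorem AA_sigma : SigmaTwo AA := by
  obtain ⟨R, h1, h2⟩ := sigma02
  refine ⟨fun x => R ((Encodable.decode (α := List Bool) x.1).getD [], x.2.1, x.2.2), ?_,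
    fun n => ?_⟩
  · refine h1.comp (Computable.pair ?_ Computable.snd)
    exact Computable.option_getD (Computable.decode.comp Computable.fst) (Computable.const [])
  · unfold AA
    rw [decide_eq_true_iff]
    exact h2 _

theorem ini_segG (n : ℕ) : Ini G (seg G n) := fun k hk => by
  rw [seg_length] at hk
  exact seg_get G hk

theorem right_succ (k : ℕ) : RightOf (seg G k ++ [true]) G ↔ G k = false := by
  constructor
  · rintro ⟨m, h1, h2, h3⟩
    have hm := lt_of_some h1
    rw [List.length_append, seg_length, List.length_singleton] at hm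
    rcases Nat.lt_or_eq_of_le (Nat.lt_succ_iff.1 hm) with h | h
    · rw [List.getElem?_append_left (by rw [seg_length]; exact h), seg_get G h] at h1
      rw [Option.some.inj h1] at h2
      simp at h2
    · rw [← h]; exact h2
  · intro h
    refine ⟨k, ?_, h, fun i hi => ?_⟩
    · rw [List.getElem?_append_right (by rw [seg_length]), seg_length]
      simp
    · rw [List.getElem?_append_left (by rw [seg_length]; exact hi), seg_get G hi]

open Classical in
theorem AA_le : Pool.Agent.Helper743.TR (chi AA) (chi G) := by
  let p : List ℕ → ℕ → ℕ → Option ℕ := fun L m _ =>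
    if ((Encodable.decode (α := List Bool) m).getD []).length ≤ L.length then
      some (if RightB ((Encodable.decode (α := List Bool) m).getD [])
        (L.map fun x => decide (x = 1)) then 1 else 0) else none
  have hd : Primrec fun q : (List ℕ × ℕ) × ℕ =>
      (Encodable.decode (α := List Bool) q.1.2).getD [] :=
    Primrec.option_getD.comp (Primrec.decode.comp (Primrec.snd.comp Primrec.fst))
      (Primrec.const [])
  refine Pool.Agent.Helper743.cert (Pool.Agent.Helper743.TR.refl _) p ?_ _ ?_ ?_
  · have h1 : Primrec fun q : (List ℕ × ℕ) × ℕ => (q.1.1.map fun x => decide (x = 1)) := by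
      refine Primrec.list_map (Primrec.fst.comp Primrec.fst) ?_
      have : PrimrecPred fun z : ((List ℕ × ℕ) × ℕ) × ℕ => z.2 = 1 :=
        Primrec.eq.comp Primrec.snd (Primrec.const 1)
      exact this.decide
    refine (Primrec.ite ?_ (Primrec.option_some.comp (Primrec.ite ?_ (Primrec.const 1)
      (Primrec.const 0))) (Primrec.const none)).to_comp
    · exact Primrec.nat_le.comp (Primrec.list_length.comp hd)
        (Primrec.list_length.comp (Primrec.fst.comp Primrec.fst))
    · exact RightB_p.comp (hd.pair h1)
  · intro m
    refine ⟨((Encodable.decode (α := List Bool) m).getD []).length, 0, ?_⟩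
    simp only [p]
    rw [if_pos (by rw [Pool.Agent.Helper743.pre_length])]
    rfl
  · intro m n w y h
    simp only [p] at h
    rw [Pool.Agent.Helper743.pre_length] at h
    have hseg : ((Pool.Agent.Helper743.pre (chi G) n).map fun x => decide (x = 1)) = seg G n := by
      unfold Pool.Agent.Helper743.pre seg
      rw [List.map_map]
      refine List.map_congr_left fun i _ => ?_
      unfold chi
      simp only [Function.comp_apply]
      cases G i <;> simp
    rw [hseg] at h
    by_cases hl : ((Encodable.decode (α := List Bool) m).getD []).length ≤ n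
    · rw [if_pos hl] at h
      have h1 : RightB ((Encodable.decode (α := List Bool) m).getD []) (seg G n) ↔
          RightOf ((Encodable.decode (α := List Bool) m).getD []) G :=
        ⟨fun h2 => right_of_ini h2 (ini_segG n),
          fun h2 => rightB_of h2 (ini_segG n) (by rw [seg_length]; exact hl)⟩
      rw [← Option.some.inj h]
      unfold chi AA
      by_cases h2 : RightOf ((Encodable.decode (α := List Bool) m).getD []) G
      · rw [if_pos (h1.2 h2), decide_eq_true h2]; rfl
      · rw [if_neg fun h3 => h2 (h1.1 h3), decide_eq_false h2]; rfl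
    · rw [if_neg hl] at h
      simp at h

open Classical in
theorem le_AA : Pool.Agent.Helper743.TR (chi G) (chi AA) := by
  let p : List ℕ → ℕ → ℕ → Option ℕ := fun L x w =>
    if ((Encodable.decode (α := List Bool) w).getD []).length = x + 1 ∧ ∀ k < x + 1,
        L[Encodable.encode (((Encodable.decode (α := List Bool) w).getD []).take k ++ [true])]? =
          some (if ((Encodable.decode (α := List Bool) w).getD [])[k]? = some true then 0 else 1)
    then some (if ((Encodable.decode (α := List Bool) w).getD [])[x]? = some true then 1 else 0)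
    else none
  have hd : Primrec fun q : (List ℕ × ℕ) × ℕ =>
      (Encodable.decode (α := List Bool) q.2).getD [] :=
    Primrec.option_getD.comp (Primrec.decode.comp Primrec.snd) (Primrec.const [])
  have hA : ∀ k, chi AA (Encodable.encode (seg G k ++ [true])) = if G k = true then 0 else 1 := by
    intro k
    unfold chi AA
    rw [Encodable.encodek, Option.getD_some]
    cases hk : G k with
    | false => rw [decide_eq_true ((right_succ k).2 hk)]; rfl
    | true =>
      rw [decide_eq_false fun h => by rw [(right_succ k).1 h] at hk; simp at hk]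
      rfl
  refine Pool.Agent.Helper743.cert (Pool.Agent.Helper743.TR.refl _) p ?_ _ ?_ ?_
  · refine (Primrec.ite (PrimrecPred.and ?_ ?_) (Primrec.option_some.comp (Primrec.ite ?_
      (Primrec.const 1) (Primrec.const 0))) (Primrec.const none)).to_comp
    · exact Primrec.eq.comp (Primrec.list_length.comp hd)
        (Primrec.succ.comp (Primrec.snd.comp Primrec.fst))
    · refine Pool.Agent.Helper227.PP.all_lt (f := fun q : (List ℕ × ℕ) × ℕ => q.1.2 + 1)
        (p := fun q k =>
          q.1.1[Encodable.encode (((Encodable.decode (α := List Bool) q.2).getD []).take k ++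
            [true])]? = some (if ((Encodable.decode (α := List Bool) q.2).getD [])[k]? = some true
              then 0 else 1)) ?_ (Primrec.succ.comp (Primrec.snd.comp Primrec.fst))
      refine Primrec.eq.comp (Primrec.list_getElem?.comp (Primrec.fst.comp (Primrec.fst.comp
        Primrec.fst)) (Primrec.encode.comp (Primrec.list_concat.comp
          (Primrec.list_take.comp Primrec.snd (hd.comp Primrec.fst)) (Primrec.const true)))) ?_
      refine Primrec.option_some.comp (Primrec.ite ?_ (Primrec.const 0) (Primrec.const 1))
      exact Primrec.eq.comp (Primrec.list_getElem?.comp (hd.comp Primrec.fst) Primrec.snd)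
        (Primrec.const _)
    · exact Primrec.eq.comp (Primrec.list_getElem?.comp hd (Primrec.snd.comp Primrec.fst))
        (Primrec.const _)
  · intro x
    refine ⟨((Finset.range (x + 1)).sup fun k => Encodable.encode (seg G k ++ [true])) + 1,
      Encodable.encode (seg G (x + 1)), ?_⟩
    simp only [p, Encodable.encodek, Option.getD_some]
    rw [if_pos]
    · rfl
    · refine ⟨seg_length _ _, fun k hk => ?_⟩
      have h1 : (seg G (x + 1)).take k = seg G k := by
        unfold seg
        rw [← List.map_take, List.take_range, min_eq_left (by omega)]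
      have h2 : Encodable.encode (seg G k ++ [true]) ≤
          (Finset.range (x + 1)).sup fun k => Encodable.encode (seg G k ++ [true]) :=
        Finset.le_sup (f := fun k => Encodable.encode (seg G k ++ [true]))
          (Finset.mem_range.2 hk)
      rw [h1, Pool.Agent.Helper743.pre_getElem?, if_pos (Nat.lt_succ_of_le h2), hA, seg_get G hk]
      cases G k <;> simp
  · intro x n w y h
    simp only [p] at h
    generalize (Encodable.decode (α := List Bool) w).getD [] = ρ at h
    by_cases hc : ρ.length = x + 1 ∧ ∀ k < x + 1,
        (Pool.Agent.Helper743.pre (chi AA) n)[Encodable.encode (ρ.take k ++ [true])]? =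
          some (if ρ[k]? = some true then 0 else 1)
    · rw [if_pos hc] at h
      have key : ∀ k ≤ x + 1, ρ.take k = seg G k := by
        intro k
        induction k with
        | zero => intro _; simp [seg]
        | succ k ih =>
          intro hk
          have h1 := ih (by omega)
          have h2 := hc.2 k (by omega)
          have h3 : k < ρ.length := by rw [hc.1]; omega
          have h4 : Encodable.encode (ρ.take k ++ [true]) < n := by
            by_contra hcon
            rw [List.getElem?_eq_none (by
              rw [Pool.Agent.Helper743.pre_length]; omega)] at h2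
            simp at h2
          rw [Pool.Agent.Helper743.pre_getElem?, if_pos h4, h1, hA,
            List.getElem?_eq_getElem h3] at h2
          rw [List.take_succ_eq_append_getElem h3, seg_succ, h1]
          congr 2
          revert h2
          cases G k <;> cases ρ[k] <;> simp
      have h5 := key (x + 1) le_rfl
      rw [List.take_of_length_le (by rw [hc.1])] at h5
      rw [← Option.some.inj h, h5, seg_get G (Nat.lt_succ_self x)]
      unfold chi
      cases G x <;> simp
    · rw [if_neg hc] at h
      simp at h

theorem degree_AA : degree (chi AA) = degree (chi G) := by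
  refine le_antisymm ?_ ?_
  · exact Pool.Agent.Helper743.TR_iff.1 AA_le
  · exact Pool.Agent.Helper743.TR_iff.1 le_AA

/-- There is a Turing degree `d` which is properly 1-generic and low for isomorphism, which is not
computable from any weakly 2-generic set, and which is a `Σ⁰₂` degree: it contains a `Σ⁰₂` set. In
fact it contains a 1-generic set `X` that is right-c.e. relative to `0'`: the set of the strings to
the right of `X` is `Σ⁰₂`. Moreover every `Π⁰₂` class of functions which has a member computable
from `d` has a computable member. -/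
theorem result : ∃ d : TuringDegree,
    ((∃ X : ℕ → Bool, degree (chi X) = d ∧ OneGeneric X ∧ IsSigma02 {σ | RightOf σ X}) ∧
      ¬ ∃ X : ℕ → Bool, degree (chi X) = d ∧ WeaklyTwoGeneric X) ∧
    (∃ B : ℕ → Bool, degree (chi B) = d ∧ SigmaTwo B) ∧
    LowForIsomorphism d ∧
    (∀ Q : ℕ → List ℕ → Bool, Computable₂ Q → ∀ g : ℕ → ℕ, degree g ≤ d →
      (∀ k, ∃ l, Q k (seg g l) = true) →
        ∃ g' : ℕ → ℕ, Computable g' ∧ ∀ k, ∃ l, Q k (seg g' l) = true) ∧
    ∀ X : ℕ → Bool, WeaklyTwoGeneric X → ¬ d ≤ degree (chi X) := by
  refine ⟨degree (chi G), ⟨⟨G, rfl, G_generic, sigma02⟩, ?_⟩, ⟨AA, degree_AA, AA_sigma⟩, G_low,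
    fun Q hQ g hg h => G_baire Q hQ g hg h, fun X hX => no_w2g_above hX⟩
  rintro ⟨X, hX, hX2⟩
  exact no_w2g_above hX2 (le_of_eq hX.symm)

end Pool.Agent.Results.MP_81a968_lc.SigmaTwoDegree
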